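import Pool.Agent.H55.AG.MGB
import Pool.Agent.H85.FG.Cor

/-!
# Few MOD gates: the Tseitin formulas of all graphs

The theorem `mgb` (H55/AG/MGB) on the Tseitin formulas of all graphs with bounded degree and large treewidth, in the
language of `few_gates`: formulas `Fo` over `¬`, `→` and unbounded MOD gates.
-/

set_option autoImplicit false

namespace Pool.Agent.H63.FG

open Pool.Agent.H3.Frg Pool.Agent.H3.Frg2 Pool.Agent.H3.Frg4 Pool.Agent.H3.Md Pool.Agent.H67.FG Pool.Agent.H85.FG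
open Pool.Agent.H55.AG

variable {V : Type}

/-- a formula without MOD gates -/
def ofF : Fm V → Fo V
  | .var v => .var v
  | .neg A => .neg (ofF A)
  | .imp A B => .imp (ofF A) (ofF B)

/-- the translation into the formulas with gates of any modulus -/
def toMF (m : ℕ) : Fo V → MF V
  | .var v => .var v
  | .neg A => .neg (toMF m A)
  | .imp A B => .imp (toMF m A) (toMF m B)
  | .mod a n f => .mod m a n fun i => toMF m (f i)

theorem toMF_ofF (m : ℕ) : ∀ A : Fm V, toMF m (ofF A) = ofFm A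
  | .var _ => rfl
  | .neg A => by rw [ofF, toMF, ofFm, toMF_ofF m A]
  | .imp A B => by rw [ofF, toMF, ofFm, toMF_ofF m A, toMF_ofF m B]

theorem toMF_inst (m : ℕ) (σ : ℕ → Fo V) : ∀ ψ : Fm ℕ, 
    toMF m (Pool.Agent.H67.FG.inst σ ψ) = Pool.Agent.H3.Md.inst (fun i => toMF m (σ i)) ψ
  | .var _ => rfl
  | .neg A => by rw [Pool.Agent.H67.FG.inst, toMF, Pool.Agent.H3.Md.inst, toMF_inst m σ A]
  | .imp A B => by rw [Pool.Agent.H67.FG.inst, toMF, Pool.Agent.H3.Md.inst, toMF_inst m σ A, toMF_inst m σ B]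

theorem countP_ofFn {X : Type} {n : ℕ} (l : Fin n → X) (v : X → Bool) :
    (List.ofFn l).countP v = (Finset.univ.filter fun i => v (l i) = true).card := by
  have h1 : ((List.ofFn l : List X) : Multiset X) = (Finset.univ : Finset (Fin n)).val.map l :=
    (Fin.univ_val_map l).symm
  have h2 : (List.ofFn l).countP v = Multiset.countP (fun x => v x = true) ((List.ofFn l : List X) : Multiset X) := by
    rw [Multiset.coe_countP]
    simp
  rw [h2, h1, Multiset.countP_map]
  rfl

theorem resp_of_good {m : ℕ} {v : MF V → Bool} (h : Good v) : Resp m fun A => v (toMF m A) := by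
  intro a n f
  show v (toMF m (.mod a n f)) = true ↔ _
  rw [toMF, h, decide_eq_true_iff, countP_ofFn]

/-- a negation which is a translation -/
theorem toMF_neg {m : ℕ} {B : Fo V} {A : MF V} (h : toMF m B = .neg A) : ∃ C, B = .neg C ∧ toMF m C = A := by
  cases B with
  | var v => simp [toMF] at h
  | neg C => exact ⟨C, rfl, by simpa [toMF] using h⟩
  | imp C D => simp [toMF] at h
  | mod a n f => simp [toMF] at h

theorem toMF_imp {m : ℕ} {B : Fo V} {A A' : MF V} (h : toMF m B = .imp A A') :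
    ∃ C D, B = .imp C D ∧ toMF m C = A ∧ toMF m D = A' := by
  cases B with
  | var v => simp [toMF] at h
  | neg C => simp [toMF] at h
  | imp C D => exact ⟨C, D, rfl, by simpa [toMF] using h⟩
  | mod a n f => simp [toMF] at h

theorem toMF_mod {m : ℕ} {B : Fo V} {q i n : ℕ} {l : Fin n → MF V} (h : toMF m B = .mod q i n l) :
    q = m ∧ ∃ f, B = .mod i n f ∧ ∀ j, l j = toMF m (f j) := by
  cases B with
  | var v => simp [toMF] at h
  | neg C => simp [toMF] at h
  | imp C D => simp [toMF] at h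
  | mod a n' f =>
    rw [toMF, MF.mod.injEq] at h
    obtain ⟨h1, h2, h3, h4⟩ := h
    subst h1 h2 h3
    refine ⟨rfl, f, rfl, fun j => ?_⟩
    have h5 := eq_of_heq h4
    rw [← h5]

/-- the outermost gates of the translation -/
theorem mem_gates {m : ℕ} {M : MF V} : ∀ {A : Fo V}, M ∈ Pool.Agent.H3.Md.gates (toMF m A) ↔ ∃ γ ∈ A.outer, toMF m γ = M
  | .var _ => by simp [toMF, Pool.Agent.H3.Md.gates, Fo.outer]
  | .neg A => by rw [toMF, Pool.Agent.H3.Md.gates, mem_gates (A := A)]; rfl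
  | .imp A B => by
    rw [toMF, Pool.Agent.H3.Md.gates, List.mem_append, mem_gates (A := A), mem_gates (A := B)]
    constructor
    · rintro (⟨γ, h1, h2⟩ | ⟨γ, h1, h2⟩)
      · exact ⟨γ, Set.mem_union_left _ h1, h2⟩
      · exact ⟨γ, Set.mem_union_right _ h1, h2⟩
    · rintro ⟨γ, h1 | h1, h2⟩
      · exact Or.inl ⟨γ, h1, h2⟩
      · exact Or.inr ⟨γ, h1, h2⟩
  | .mod a n f => by
    rw [toMF, Pool.Agent.H3.Md.gates, List.mem_singleton]
    constructor
    · intro h
      exact ⟨.mod a n f, rfl, by rw [h, toMF]⟩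
    · rintro ⟨γ, h1, h2⟩
      have h1 : γ = .mod a n f := h1
      rw [← h2, h1, toMF]

theorem mdep_toMF {m : ℕ} (P : MF V → Prop) : ∀ (A : Fo V) (D : ℕ), A.dep ≤ D → MDep P D (toMF m A)
  | .var v, D, _ => MDep.var D v
  | .neg A, D, h => by
    rw [Fo.dep] at h
    obtain ⟨D', rfl⟩ : ∃ D', D = D' + 1 := ⟨D - 1, by omega⟩
    exact MDep.neg D' _ (mdep_toMF P A D' (by omega))
  | .imp A B, D, h => by
    rw [Fo.dep] at h
    have h1 := le_max_left (A.dep + 1) B.dep
    have h2 := le_max_right (A.dep + 1) B.dep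
    obtain ⟨D', rfl⟩ : ∃ D', D = D' + 1 := ⟨D - 1, by omega⟩
    exact MDep.imp D' _ _ (mdep_toMF P A D' (by omega)) (mdep_toMF P B (D' + 1) (by omega))
  | .mod a n f, D, _ => MDep.gate D m a n _

theorem lv_toMF {m c t d : ℕ} (P : MF V → Prop) (Q : ℕ → Prop) (hQ : Q m) (htc : t ≤ c) : ∀ (l : ℕ) (A : Fo V),
    nest A ≤ l → (∀ B ∈ A.subs, B.dep ≤ d ∧ B.outer.ncard ≤ t) → Lv P Q d c l (toMF m A) := by
  intro l
  induction l with
  | zero =>
    intro A h hB
    refine ⟨mdep_toMF P A d (hB A (self_mem_subs A)).1, ?_⟩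
    rw [List.eq_nil_iff_forall_not_mem]
    intro M hM
    obtain ⟨γ, h1, _⟩ := mem_gates.1 hM
    rw [outer_empty (by omega : nest A = 0)] at h1
    exact h1
  | succ l ih =>
    intro A h hB
    refine ⟨mdep_toMF P A d (hB A (self_mem_subs A)).1, ?_, ?_⟩
    · have h1 : {M | M ∈ Pool.Agent.H3.Md.gates (toMF m A)} = toMF m '' A.outer := by
        ext M
        exact mem_gates
      rw [h1]
      exact (Set.ncard_image_le ((gates_finite A).subset (outer_gates A))).trans
        ((hB A (self_mem_subs A)).2.trans htc)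
    · intro q i n f' hM
      obtain ⟨γ, h1, h2⟩ := mem_gates.1 hM
      obtain ⟨h3, f, h4, h5⟩ := toMF_mod h2
      refine ⟨h3 ▸ hQ, fun j => ?_⟩
      rw [h5 j]
      have h6 := outer_nest A _ h1
      rw [h4] at h6 h1
      have h7 : nest (f j) ≤ Finset.univ.sup fun i => nest (f i) :=
        Finset.le_sup (f := fun i => nest (f i)) (Finset.mem_univ j)
      simp only [nest] at h6
      exact ih _ (by omega) fun B hB' => hB B (subs_trans hB' (mem_subs_of_mem_mod (outer_gates A h1).1 j))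

theorem nest_mono {B : Fo V} : ∀ {A : Fo V}, B ∈ A.subs → nest B ≤ nest A
  | .var v, h => by
    rw [Fo.subs, List.mem_singleton] at h
    rw [h]
  | .neg A, h => by
    rw [Fo.subs, List.mem_cons] at h
    rcases h with rfl | h
    · exact le_rfl
    · exact nest_mono (A := A) h
  | .imp A A', h => by
    rw [Fo.subs, List.mem_cons, List.mem_append] at h
    rcases h with rfl | h | h
    · exact le_rfl
    · exact (nest_mono (A := A) h).trans (le_max_left _ _)
    · exact (nest_mono (A := A') h).trans (le_max_right _ _)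
  | .mod a n f, h => by
    rw [Fo.subs, List.mem_cons, List.mem_flatMap] at h
    rcases h with rfl | ⟨i, _, h⟩
    · exact le_rfl
    · have h1 := nest_mono (A := f i) h
      have h2 : nest (f i) ≤ Finset.univ.sup fun i => nest (f i) :=
        Finset.le_sup (f := fun i => nest (f i)) (Finset.mem_univ i)
      simp only [nest]
      omega

/-- Few MOD gates, all graphs: for all `Δ`, `d`, `l` there is `ε > 0` such that for all `k` and all large `w`: for
all connected graphs with degrees at most `Δ`, treewidth greater than `w` and odd charge, all powers `p ^ e ≤ w ^ ε` of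
odd primes and all `t ≤ w ^ ε`: every refutation of the Tseitin formula with lines of left depth at most `d` between
MOD gates, in which the MOD gates are nested at most `l` times and every subformula has at most `t` different
outermost MOD gates, has at least `2 ^ (w ^ ε)` different subformulas. -/
theorem all_graphs (Δ d l : ℕ) : ∃ ε : ℝ, 0 < ε ∧ ∀ k : ℕ, ∃ w0 : ℕ, ∀ w, w0 ≤ w →
    ∀ (V : Type) [Fintype V] (G : SimpleGraph V), G.Connected → (∀ v, (nbG G v).card ≤ Δ) → ¬ TwLE G w →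
    ∀ (ν : Sym2 V → ℕ), Set.InjOn ν G.edgeSet →
    ∀ (c : V → Bool), Odd (Finset.univ.filter fun v => c v = true).card →
    ∀ p e t : ℕ, p.Prime → Odd p → ((p ^ e : ℕ) : ℝ) ≤ (w : ℝ) ^ ε → (t : ℝ) ≤ (w : ℝ) ^ ε →
    ∀ π : List (Fo ℕ), IsRef (p ^ e) k {A | ∃ X ∈ Ts Δ G ν c, A = ofF X} π →
      (∀ A ∈ π, nest A ≤ l ∧ ∀ B ∈ A.subs, B.dep ≤ d ∧ B.outer.ncard ≤ t) →
      (2 : ℝ) ^ ((w : ℝ) ^ ε) ≤ ({B | ∃ A ∈ π, B ∈ A.subs}.ncard : ℝ) := by
  obtain ⟨ε, hε, h⟩ := mgb Δ 0 (by norm_num) d l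
  refine ⟨ε, hε, fun k => ?_⟩
  obtain ⟨w0, hw0⟩ := h (max k 3)
  refine ⟨w0, fun w hw V _ G hG hΔ htw ν hν c hc p e t hp hp2 hpe ht π hπ hline => ?_⟩
  classical
  set m := p ^ e with hm
  set F : Finset (MF ℕ) := ((π.flatMap Fo.subs).map (toMF m)).toFinset with hFdef
  have hF : ∀ M, M ∈ F ↔ ∃ A ∈ π, ∃ B ∈ A.subs, toMF m B = M := by
    intro M
    rw [hFdef, List.mem_toFinset, List.mem_map]
    constructor
    · rintro ⟨B, hB, rfl⟩
      obtain ⟨A, hA, hB⟩ := List.mem_flatMap.1 hB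
      exact ⟨A, hA, B, hB, rfl⟩
    · rintro ⟨A, hA, B, hB, rfl⟩
      exact ⟨B, List.mem_flatMap.2 ⟨A, hA, hB⟩, rfl⟩
  have hcard : F.card ≤ {B | ∃ A ∈ π, B ∈ A.subs}.ncard := by
    have h1 : {B | ∃ A ∈ π, B ∈ A.subs} = (((π.flatMap Fo.subs).toFinset : Finset (Fo ℕ)) : Set (Fo ℕ)) := by
      ext B
      simp only [Set.mem_ofPred_eq, List.coe_toFinset, List.mem_flatMap]
    rw [h1, Set.ncard_coe_finset]
    have h2 : F = (π.flatMap Fo.subs).toFinset.image (toMF m) := by
      ext M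
      rw [hFdef, List.mem_toFinset, List.mem_map, Finset.mem_image]
      simp only [List.mem_toFinset]
    rw [h2]
    exact Finset.card_image_le
  obtain ⟨hne, A0, hlast⟩ := hπ.last
  have hA0 : Fo.neg (.imp A0 A0) ∈ π := hlast ▸ List.getLast_mem hne
  have hA1 : Fo.imp A0 A0 ∈ (Fo.neg (.imp A0 A0)).subs := by
    rw [Fo.subs]
    exact List.mem_cons_of_mem _ (self_mem_subs _)
  have hlen : 0 < π.length := List.length_pos_iff.2 hne
  set pf : Fin (π.length + 1) → MF ℕ := fun i =>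
    if h : (i : ℕ) < π.length then toMF m (π[(i : ℕ)]'h) else toMF m (.imp A0 A0) with hpf
  have pf1 : ∀ (i : Fin (π.length + 1)) (h : (i : ℕ) < π.length), pf i = toMF m (π[(i : ℕ)]'h) := fun i h => by
    rw [hpf]
    simp only [h, dite_true]
  have pf2 : ∀ (i : Fin (π.length + 1)), ¬ (i : ℕ) < π.length → pf i = toMF m (.imp A0 A0) := fun i h => by
    rw [hpf]
    simp only [h, dite_false]
  have key := hw0 w hw V G hG hΔ htw ν hν c (by convert hc) (max m t)
    (by push_cast; exact max_le (by exact_mod_cast hpe) ht) ∅ F (by simp) ?_ ?_ (π.length + 1) pf ?_ ?_ ?_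
  · exact key.trans (by exact_mod_cast hcard)
  · -- closed
    refine ⟨fun A hA _ => ?_, fun A B hA _ => ?_, fun q i n l hA j => ?_⟩
    · obtain ⟨X, hX, Y, hY, h1⟩ := (hF _).1 (Finset.mem_coe.1 hA)
      obtain ⟨C, rfl, h2⟩ := toMF_neg h1
      refine Finset.mem_coe.2 ((hF _).2 ⟨X, hX, C, subs_trans ?_ hY, h2⟩)
      rw [Fo.subs]
      exact List.mem_cons_of_mem _ (self_mem_subs _)
    · obtain ⟨X, hX, Y, hY, h1⟩ := (hF _).1 (Finset.mem_coe.1 hA)
      obtain ⟨C, D, rfl, h2, h3⟩ := toMF_imp h1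
      refine ⟨Finset.mem_coe.2 ((hF _).2 ⟨X, hX, C, subs_trans ?_ hY, h2⟩),
        Finset.mem_coe.2 ((hF _).2 ⟨X, hX, D, subs_trans ?_ hY, h3⟩)⟩
      · rw [Fo.subs]
        exact List.mem_cons_of_mem _ (List.mem_append_left _ (self_mem_subs _))
      · rw [Fo.subs]
        exact List.mem_cons_of_mem _ (List.mem_append_right _ (self_mem_subs _))
    · obtain ⟨X, hX, Y, hY, h1⟩ := (hF _).1 (Finset.mem_coe.1 hA)
      obtain ⟨_, f, rfl, h2⟩ := toMF_mod h1
      exact Finset.mem_coe.2 ((hF _).2 ⟨X, hX, f j, mem_subs_of_mem_mod hY j, (h2 j).symm⟩)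
  · -- levels
    intro A hA
    obtain ⟨X, hX, Y, hY, rfl⟩ := (hF _).1 hA
    refine ⟨p, hp, fun h2 => ?_, lv_toMF _ _ ⟨le_max_left _ _, e, hm⟩ (le_max_right _ _) l Y
      ((nest_mono hY).trans (hline X hX).1) fun B hB => (hline X hX).2 B (subs_trans hB hY)⟩
    rw [h2] at hp2
    exact absurd hp2 (by decide)
  · -- derivation
    intro i
    by_cases hi : (i : ℕ) < π.length
    · rw [pf1 i hi]
      rcases hπ.line i hi with h1 | ⟨ψ, σ, h1, h2, h3⟩ | ⟨j, l', hj, hl', h1⟩
      · obtain ⟨X, hX, h1⟩ := h1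
        exact Or.inl ⟨X, hX, by rw [h1, toMF_ofF]⟩
      · refine Or.inr (Or.inl ⟨ψ, fun n => toMF m (σ n), h1.trans (le_max_left _ _), ?_, fun v hv => ?_⟩)
        · rw [h3, toMF_inst]
        · exact h2 (fun A => v (toMF m A)) (resp_of_good hv)
      · refine Or.inr (Or.inr ⟨⟨j, by omega⟩, Fin.lt_def.2 hj, ⟨l', by omega⟩, Fin.lt_def.2 hl', ?_⟩)
        rw [pf1 ⟨l', by omega⟩ (by show l' < π.length; omega), pf1 ⟨j, by omega⟩ (by show j < π.length; omega)]
        show toMF m π[l'] = MF.imp (toMF m π[j]) (toMF m π[(i : ℕ)])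
        rw [h1, toMF]
    · refine Or.inr (Or.inl ⟨.imp (.var 0) (.var 0), fun _ => toMF m A0, by simp [Fm.len], ?_, fun v _ => ?_⟩)
      · rw [pf2 i hi]
        rfl
      · simp [Fm.eval]
  · -- all lines are in F
    intro i
    by_cases hi : (i : ℕ) < π.length
    · rw [pf1 i hi]
      exact (hF _).2 ⟨_, List.getElem_mem hi, _, self_mem_subs _, rfl⟩
    · rw [pf2 i hi]
      exact (hF _).2 ⟨_, hA0, _, hA1, rfl⟩
  · -- a formula and its negation
    refine ⟨⟨π.length - 1, by omega⟩, ⟨π.length, by omega⟩, ?_⟩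
    rw [pf1 ⟨π.length - 1, by omega⟩ (by show π.length - 1 < π.length; omega), pf2 ⟨π.length, by omega⟩ (by simp)]
    show toMF m π[π.length - 1] = _
    rw [← List.getLast_eq_getElem hne, hlast, toMF]

end Pool.Agent.H63.FG
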